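import Pool.Agent.Helper63.XP.StA

/-!
# Project XP (MP_c973ff_an), module FNX: the contradiction
-/

set_option autoImplicit false

namespace Pool.Agent.Helper74.XP

open Pool.Agent.Helper63.XP

open Finset

open Pool.Agent.Helper63.XR (gen blk wt)

/-- Hölder's inequality on a subset. -/
theorem hold {J : Type} [Fintype J] (p : ℝ) (hp : 1 < p) (v : J → ℂ) (W : Finset J) :
    ∑ i ∈ W, ‖v i‖ ≤ (W.card : ℝ) ^ (1 - 1 / p) * (np p v) ^ (1 / p) := by
  have hp0 : 0 < p := by linarith
  have hpq : p.HolderConjugate (p / (p - 1)) := Real.HolderConjugate.conjExponent hp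
  have h1 := Real.inner_le_Lp_mul_Lq W (fun i => ‖v i‖) (fun _ => (1 : ℝ)) hpq
  have h2 : 1 / (p / (p - 1)) = 1 - 1 / p := by
    have : p ≠ 0 := hp0.ne'
    have : p - 1 ≠ 0 := by linarith
    field_simp
  simp only [mul_one, abs_one, Real.one_rpow, Finset.sum_const, nsmul_eq_mul, abs_norm] at h1
  rw [h2] at h1
  have h3 : (∑ i ∈ W, ‖v i‖ ^ p) ^ (1 / p) ≤ (np p v) ^ (1 / p) := by
    apply Real.rpow_le_rpow
    · exact Finset.sum_nonneg fun i _ => Real.rpow_nonneg (norm_nonneg _) _
    · unfold np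
      exact Finset.sum_le_sum_of_subset_of_nonneg (Finset.subset_univ W)
        (fun i _ _ => Real.rpow_nonneg (norm_nonneg _) _)
    · positivity
  calc ∑ i ∈ W, ‖v i‖ ≤ (∑ i ∈ W, ‖v i‖ ^ p) ^ (1 / p) * (W.card : ℝ) ^ (1 - 1 / p) := h1
    _ ≤ (np p v) ^ (1 / p) * (W.card : ℝ) ^ (1 - 1 / p) :=
      mul_le_mul_of_nonneg_right h3 (Real.rpow_nonneg (Nat.cast_nonneg _) _)
    _ = _ := mul_comm _ _

/-- the norm of a unit vector -/
theorem np_single {J : Type} [Fintype J] [DecidableEq J] (p : ℝ) (hp : 0 < p) (j : J) :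
    np p (Pi.single j 1 : J → ℂ) = 1 := by
  unfold np
  rw [Finset.sum_eq_single j]
  · rw [Pi.single_eq_same, norm_one, Real.one_rpow]
  · intro i _ hi
    rw [Pi.single_eq_of_ne hi, norm_zero, Real.zero_rpow hp.ne']
  · intro h
    exact absurd (Finset.mem_univ _) h

theorem np_nonneg {J : Type} [Fintype J] (p : ℝ) (f : J → ℂ) : 0 ≤ np p f :=
  Finset.sum_nonneg fun _ _ => Real.rpow_nonneg (norm_nonneg _) _

theorem root_le {a b p : ℝ} (ha : 0 ≤ a) (hb : 0 ≤ b) (hp : 0 < p) (h : a ≤ b ^ p) : a ^ (1 / p) ≤ b := by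
  calc a ^ (1 / p) ≤ (b ^ p) ^ (1 / p) := Real.rpow_le_rpow ha h (by positivity)
    _ = b := by
      rw [← Real.rpow_mul hb, mul_one_div_cancel hp.ne', Real.rpow_one]

/-- the arithmetic of one layer -/
theorem layer_arith {p C K d m D c : ℝ} (hC : 0 ≤ C) (hK : 0 ≤ K) (hp : 1 < p) (hd : 0 < d) (hm : 0 ≤ m)
    (hD : 0 < D) (hc0 : 0 ≤ c) (hc : c ≤ m * D) :
    C / d ^ (1 / p) * D ^ (1 / p - 1) * (c ^ (1 - 1 / p) * K) ≤
      C * K * (d ^ (-(1 / p)) * m ^ (1 - 1 / p)) := by
  have hp0 : 0 < p := by linarith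
  have he : 0 < 1 - 1 / p := by
    have : 1 / p < 1 := by
      rw [div_lt_one hp0]
      exact hp
    linarith
  have h1 : c ^ (1 - 1 / p) ≤ m ^ (1 - 1 / p) * D ^ (1 - 1 / p) := by
    rw [← Real.mul_rpow hm hD.le]
    exact Real.rpow_le_rpow hc0 hc he.le
  have h2 : D ^ (1 / p - 1) * D ^ (1 - 1 / p) = 1 := by
    rw [← Real.rpow_add hD]
    have : 1 / p - 1 + (1 - 1 / p) = 0 := by ring
    rw [this, Real.rpow_zero]
  have h3 : (d ^ (1 / p))⁻¹ = d ^ (-(1 / p)) := (Real.rpow_neg hd.le _).symm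
  have h4 : 0 ≤ C / d ^ (1 / p) * D ^ (1 / p - 1) := by positivity
  calc C / d ^ (1 / p) * D ^ (1 / p - 1) * (c ^ (1 - 1 / p) * K)
      ≤ C / d ^ (1 / p) * D ^ (1 / p - 1) * (m ^ (1 - 1 / p) * D ^ (1 - 1 / p) * K) :=
        mul_le_mul_of_nonneg_left (mul_le_mul_of_nonneg_right h1 hK) h4
    _ = C * K * ((d ^ (1 / p))⁻¹ * m ^ (1 - 1 / p)) * (D ^ (1 / p - 1) * D ^ (1 - 1 / p)) := by
        rw [div_eq_mul_inv]
        ring
    _ = _ := by rw [h2, h3, mul_one]

set_option maxHeartbeats 1000000 in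
theorem hFNX : StFnx := by
  intro hgen hadj P _ _ k b d m J Q B g S _ _ t p r C K lam eps z tau ha hc s0 Y Z κ z' β hp1 hp2 hb hk hlam
    hlC hCr hK hpar hs hβ hx hY hZ hid hEE hinv
  obtain ⟨Bad, ψ, hBad, h1, h2, h3, h4, -, hcard⟩ := hinv
  obtain ⟨-, hg2, hg3, -⟩ := hgen P k b d m J Q B g
  have hp0 : 0 < p := by linarith
  have hC0 : 0 < C := by linarith
  have hr0 : 0 < r := by linarith
  have hK0 : 0 < K := by linarith
  have hlam0 : 0 < lam := by linarith
  have hd1 : ∀ l, 1 ≤ d l := fun l => (hpar.md_pos l).1.trans (hpar.md_pos l).2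
  have hd0 : ∀ l, (0 : ℝ) < d l := fun l => by exact_mod_cast hd1 l
  have hm0 : ∀ l, (0 : ℝ) < m l := fun l => by exact_mod_cast (hpar.md_pos l).1
  -- choice of `j`
  have hAl : (0 : ℝ) < (Al g t 0).card := by
    rw [(hadj P k b d m J Q B g).2 S t 0 (Nat.zero_le _)]
    obtain ⟨s, hs⟩ := hs
    have h5 : 0 < (univ.filter fun s => t s = 1).card :=
      Finset.card_pos.2 ⟨s, Finset.mem_filter.2 ⟨Finset.mem_univ _, hs⟩⟩
    have h6 : (0 : ℝ) < ((univ.filter fun s => t s = 1).card : ℝ) := by exact_mod_cast h5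
    have h7 : (0 : ℝ) < b := by exact_mod_cast hb
    have h8 : Rr d m 0 = 1 := by
      unfold Rr
      rw [Finset.range_zero, Finset.prod_empty]
    rw [h8]
    positivity
  obtain ⟨j, hj, hjB⟩ : ∃ j ∈ Al g t 0, j ∉ Bad := by
    by_contra hcon
    push Not at hcon
    have h5 : (Al g t 0).card ≤ Bad.card := Finset.card_le_card hcon
    have h6 : ((Al g t 0).card : ℝ) ≤ Bad.card := by exact_mod_cast h5
    nlinarith
  have hj' : t j.1 = 1 ∧ g.lev j.2 = 0 := by
    have h5 := hj
    unfold Al at h5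
    exact (Finset.mem_filter.1 h5).2
  obtain ⟨htj, hlj⟩ := hj'
  set θ : ℝ := lam / C with hθ
  have hθ0 : 0 < θ := by positivity
  have hθ1 : θ < 1 := by rw [hθ, div_lt_one hC0]; exact hlC
  set D : ℕ → ℝ := fun q => ∏ a ∈ Ico 0 q, (d a : ℝ) with hDdef
  have hD0 : ∀ q, 0 < D q := fun q => Finset.prod_pos fun a _ => hd0 a
  have hψn : ∀ q i, ‖ψ q j i‖ ≤ D q ^ (1 / p - 1) := fun q i => (h1 j hj q i).1
  have hψs : ∀ q i, ψ q j i ≠ 0 → i.1 = j.1 ∧ i.2 ∈ gen g.ch j.2 q ∧ g.lev i.2 = q := by
    intro q i hne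
    obtain ⟨-, -, h5, h6⟩ := (h1 j hj q i).2 hne
    rw [Nat.sub_zero] at h6
    refine ⟨h5, h6, ?_⟩
    rw [hg2 _ _ _ h6, hlj, zero_add]
  have hgc : ∀ q, ((gen g.ch j.2 q).card : ℝ) ≤ D q := by
    intro q
    have h5 := hg3 j.2 q
    rw [hlj, zero_add] at h5
    have h6 : ((gen g.ch j.2 q).card : ℝ) ≤ ((∏ i ∈ Ico 0 q, d i : ℕ) : ℝ) := by exact_mod_cast h5
    refine h6.trans (le_of_eq ?_)
    rw [hDdef]
    push_cast
    rfl
  let φ : S × P → ℂ := fun i => ∑ q ∈ range (k + 1), ((θ ^ q : ℝ) : ℂ) * ψ q j i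
  have hφ : ∀ i, φ i = ((θ ^ (g.lev i.2) : ℝ) : ℂ) * ψ (g.lev i.2) j i := by
    intro i
    apply Finset.sum_eq_single (g.lev i.2)
    · intro q _ hq
      by_cases h0 : ψ q j i = 0
      · rw [h0, mul_zero]
      · exact absurd (hψs q i h0).2.2.symm hq
    · intro h
      exact absurd (Finset.mem_range.2 (Nat.lt_succ_of_le (g.lev_le i.2))) h
  have hφx : ∀ i : S × P, ∑ i', φ i' * blk t (xm g p C) i' i =
      ∑ c ∈ g.ch i.2, φ (i.1, c) * ((t i.1 : ℂ) * (((C / (d (g.lev i.2) : ℝ) ^ (1 / p) : ℝ) : ℂ) * g.σ c i.2)) := by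
    intro i
    rw [Fintype.sum_prod_type]
    rw [Finset.sum_eq_single i.1]
    · have e0 : ∀ y, blk t (xm g p C) (i.1, y) i = (t i.1 : ℂ) * xm g p C y i.2 := by
        intro y
        show (if i.1 = i.1 then (t i.1 : ℂ) * xm g p C y i.2 else 0) = _
        rw [if_pos rfl]
      simp only [e0]
      rw [← Finset.sum_subset (Finset.subset_univ (g.ch i.2))]
      · apply Finset.sum_congr rfl
        intro c hc
        show _ * (_ * (if c ∈ g.ch i.2 then _ else 0)) = _
        rw [if_pos hc]
      · intro c _ hc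
        show _ * (_ * (if c ∈ g.ch i.2 then _ else 0)) = _
        rw [if_neg hc, mul_zero, mul_zero]
    · intro s _ hs
      apply Finset.sum_eq_zero
      intro y _
      show φ (s, y) * (if s = i.1 then _ else 0) = 0
      rw [if_neg hs, mul_zero]
    · intro h
      exact absurd (Finset.mem_univ _) h
  -- the sets of exceptional vertices
  classical
  let W : ℕ → Finset (S × P) := fun q =>
    ((gen g.ch j.2 (q + 1)).biUnion fun c => univ.filter fun v => c ∈ g.ch v).image fun u => (j.1, u)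
  let Wk : Finset (S × P) := (gen g.ch j.2 k).image fun u => (j.1, u)
  have hWc : ∀ q, ((W q).card : ℝ) ≤ m q * D (q + 1) := by
    intro q
    have h5 : (W q).card ≤ (gen g.ch j.2 (q + 1)).card * m q := by
      refine Finset.card_image_le.trans ?_
      refine Finset.card_biUnion_le_card_mul _ _ _ ?_
      intro c hc
      have h6 := g.card_par c
      rw [hg2 _ _ _ hc, hlj, zero_add, Nat.add_sub_cancel] at h6
      exact h6
    have h6 : ((W q).card : ℝ) ≤ ((gen g.ch j.2 (q + 1)).card : ℝ) * m q := by exact_mod_cast h5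
    refine h6.trans ?_
    rw [mul_comm]
    exact mul_le_mul_of_nonneg_left (hgc (q + 1)) (hm0 q).le
  have hWkc : (Wk.card : ℝ) ≤ 1 * D k := by
    rw [one_mul]
    refine le_trans ?_ (hgc k)
    exact_mod_cast Finset.card_image_le
  let A : ℕ → ℝ := fun q => C / (d q : ℝ) ^ (1 / p) * D (q + 1) ^ (1 / p - 1)
  have hA0 : ∀ q, 0 ≤ A q := fun q => by
    have := hD0 (q + 1)
    have := hd0 q
    positivity
  have hAk0 : 0 ≤ θ ^ k * D k ^ (1 / p - 1) := by
    have := hD0 k
    positivity
  -- the pointwise claim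
  have hclaim : ∀ i : S × P, ‖φ i - ∑ i', φ i' * blk t (xm g p C) i' i‖ ≤
      ∑ q ∈ range k, (if i ∈ W q then A q else 0) +
        (if i ∈ Wk then θ ^ k * D k ^ (1 / p - 1) else 0) := by
    intro i
    have hpos1 : 0 ≤ ∑ q ∈ range k, (if i ∈ W q then A q else 0) :=
      Finset.sum_nonneg fun q _ => by
        split_ifs
        · exact hA0 q
        · exact le_rfl
    have hpos2 : 0 ≤ (if i ∈ Wk then θ ^ k * D k ^ (1 / p - 1) else 0) := by
      split_ifs
      · exact hAk0
      · exact le_rfl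
    rw [hφx i]
    by_cases hs' : i.1 = j.1
    · have hlc : ∀ c ∈ g.ch i.2, g.lev c = g.lev i.2 + 1 := fun c hc => g.ch_lev _ c hc
      have hlev : g.lev i.2 ≤ k := g.lev_le i.2
      obtain ⟨q, hq⟩ : ∃ q, g.lev i.2 = q := ⟨_, rfl⟩
      rw [hq] at hlc hlev
      have e1 : ∑ c ∈ g.ch i.2, φ (i.1, c) * ((t i.1 : ℂ) *
          (((C / (d (g.lev i.2) : ℝ) ^ (1 / p) : ℝ) : ℂ) * g.σ c i.2)) =
          ((θ ^ (q + 1) * (C / (d q : ℝ) ^ (1 / p)) : ℝ) : ℂ) *
            ∑ c ∈ g.ch i.2, g.σ c i.2 * ψ (q + 1) j (j.1, c) := by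
        rw [Finset.mul_sum]
        apply Finset.sum_congr rfl
        intro c hc
        rw [hφ (i.1, c)]
        show ((θ ^ (g.lev c) : ℝ) : ℂ) * ψ (g.lev c) j (i.1, c) * _ = _
        rw [hlc c hc, hs', htj, hq]
        push_cast
        ring
      rw [e1, hφ i, hq]
      have hji : (j.1, i.2) = i := Prod.ext hs'.symm rfl
      rcases hlev.lt_or_eq with hqk | hqk
      · have hdq : (0 : ℝ) < (d q : ℝ) ^ (1 / p) := Real.rpow_pos_of_pos (hd0 q) _
        by_cases hu : i.2 ∈ gen g.ch j.2 q
        · have h6 := h3 j hj hjB q (Nat.zero_le _) hqk i.2 (by rw [Nat.sub_zero]; exact hu)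
          rw [hji] at h6
          have h8 : ((θ ^ (q + 1) * (C / (d q : ℝ) ^ (1 / p)) : ℝ) : ℂ) *
              ∑ c ∈ g.ch i.2, g.σ c i.2 * ψ (q + 1) j (j.1, c) = ((θ ^ q : ℝ) : ℂ) * ψ q j i := by
            have h9 : θ ^ (q + 1) * (C / (d q : ℝ) ^ (1 / p)) = θ ^ q / (d q : ℝ) ^ (1 / p) * lam := by
              rw [pow_succ, hθ]
              field_simp
            rw [h9]
            rw [Complex.ofReal_mul, mul_assoc, h6, ← mul_assoc, ← Complex.ofReal_mul]
            rw [div_mul_cancel₀ _ hdq.ne']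
          rw [h8, sub_self, norm_zero]
          exact add_nonneg hpos1 hpos2
        · have h6 : ψ q j i = 0 := by
            by_contra h0
            exact hu (hψs q i h0).2.1
          rw [h6, mul_zero, zero_sub, norm_neg]
          by_cases hex : ∃ c ∈ g.ch i.2, c ∈ gen g.ch j.2 (q + 1)
          · obtain ⟨c0, hc0, hc0g⟩ := hex
            have hiW : i ∈ W q := by
              refine Finset.mem_image.2 ⟨i.2, ?_, hji⟩
              exact Finset.mem_biUnion.2 ⟨c0, hc0g, Finset.mem_filter.2 ⟨Finset.mem_univ _, hc0⟩⟩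
            have h7 : ‖∑ c ∈ g.ch i.2, g.σ c i.2 * ψ (q + 1) j (j.1, c)‖ ≤ D (q + 1) ^ (1 / p - 1) := by
              have hDn : 0 ≤ D (q + 1) ^ (1 / p - 1) := Real.rpow_nonneg (hD0 _).le _
              calc ‖∑ c ∈ g.ch i.2, g.σ c i.2 * ψ (q + 1) j (j.1, c)‖
                  = ‖∑ c ∈ g.ch i.2 ∩ gen g.ch j.2 (q + 1), g.σ c i.2 * ψ (q + 1) j (j.1, c)‖ := by
                    congr 1
                    symm
                    apply Finset.sum_subset Finset.inter_subset_left
                    intro c hc hc2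
                    by_contra h0
                    have h01 : ψ (q + 1) j (j.1, c) ≠ 0 := fun h02 => h0 (by rw [h02, mul_zero])
                    exact hc2 (Finset.mem_inter.2 ⟨hc, (hψs _ _ h01).2.1⟩)
                _ ≤ ∑ c ∈ g.ch i.2 ∩ gen g.ch j.2 (q + 1), ‖g.σ c i.2 * ψ (q + 1) j (j.1, c)‖ :=
                    norm_sum_le _ _
                _ ≤ ∑ c ∈ g.ch i.2 ∩ gen g.ch j.2 (q + 1), D (q + 1) ^ (1 / p - 1) := by
                    apply Finset.sum_le_sum
                    intro c _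
                    rw [norm_mul, g.uni, one_mul]
                    exact hψn _ _
                _ = ((g.ch i.2 ∩ gen g.ch j.2 (q + 1)).card : ℝ) * D (q + 1) ^ (1 / p - 1) := by
                    rw [Finset.sum_const, nsmul_eq_mul]
                _ ≤ 1 * D (q + 1) ^ (1 / p - 1) := by
                    apply mul_le_mul_of_nonneg_right _ hDn
                    exact_mod_cast g.par1 j.2 q i.2 hu
                _ = _ := one_mul _
            have h8 : ‖((θ ^ (q + 1) * (C / (d q : ℝ) ^ (1 / p)) : ℝ) : ℂ) *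
                ∑ c ∈ g.ch i.2, g.σ c i.2 * ψ (q + 1) j (j.1, c)‖ ≤ A q := by
              rw [norm_mul, Complex.norm_real, Real.norm_of_nonneg (by positivity)]
              calc θ ^ (q + 1) * (C / (d q : ℝ) ^ (1 / p)) *
                    ‖∑ c ∈ g.ch i.2, g.σ c i.2 * ψ (q + 1) j (j.1, c)‖
                  ≤ 1 * (C / (d q : ℝ) ^ (1 / p)) * D (q + 1) ^ (1 / p - 1) := by
                    apply mul_le_mul _ h7 (norm_nonneg _) (by positivity)
                    apply mul_le_mul_of_nonneg_right _ (by positivity)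
                    exact pow_le_one₀ hθ0.le hθ1.le
                _ = A q := by rw [one_mul]
            have h9 : A q ≤ ∑ q ∈ range k, (if i ∈ W q then A q else 0) := by
              have h10 := Finset.single_le_sum (f := fun q => if i ∈ W q then A q else 0)
                (fun q _ => by
                  show 0 ≤ (if i ∈ W q then A q else 0)
                  split_ifs
                  · exact hA0 q
                  · exact le_rfl) (Finset.mem_range.2 hqk)
              have h11 : (if i ∈ W q then A q else 0) ≤ ∑ q ∈ range k, (if i ∈ W q then A q else 0) := h10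
              rw [if_pos hiW] at h11
              exact h11
            linarith
          · have h7 : ∑ c ∈ g.ch i.2, g.σ c i.2 * ψ (q + 1) j (j.1, c) = 0 := by
              apply Finset.sum_eq_zero
              intro c hc
              by_contra h0
              have h01 : ψ (q + 1) j (j.1, c) ≠ 0 := fun h02 => h0 (by rw [h02, mul_zero])
              exact hex ⟨c, hc, (hψs _ _ h01).2.1⟩
            rw [h7, mul_zero, norm_zero]
            exact add_nonneg hpos1 hpos2
      · have hch : g.ch i.2 = ∅ := by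
          apply Finset.eq_empty_of_forall_notMem
          intro c hc
          have h6 := hlc c hc
          have h7 := g.lev_le c
          omega
        rw [hch, Finset.sum_empty, mul_zero, sub_zero, norm_mul, Complex.norm_real,
          Real.norm_of_nonneg (by positivity)]
        by_cases h0 : ψ q j i = 0
        · rw [h0, norm_zero, mul_zero]
          exact add_nonneg hpos1 hpos2
        · have hiW : i ∈ Wk := by
            have h12 := (hψs _ _ h0).2.1
            rw [hqk] at h12
            exact Finset.mem_image.2 ⟨i.2, h12, hji⟩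
          rw [if_pos hiW, hqk]
          have h9 : θ ^ k * ‖ψ k j i‖ ≤ θ ^ k * D k ^ (1 / p - 1) :=
            mul_le_mul_of_nonneg_left (hψn k i) (by positivity)
          linarith
    · have e1 : ∀ c : P, φ (i.1, c) = 0 := by
        intro c
        rw [hφ]
        by_cases h0 : ψ (g.lev c) j (i.1, c) = 0
        · show ((θ ^ (g.lev c) : ℝ) : ℂ) * ψ (g.lev c) j (i.1, c) = 0
          rw [h0, mul_zero]
        · exact absurd (hψs _ _ h0).1 hs'
      have e2 : φ i = 0 := e1 i.2
      rw [e2]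
      simp only [e1, zero_mul, Finset.sum_const_zero, sub_zero, norm_zero]
      exact add_nonneg hpos1 hpos2
  -- linearity of the pairing
  have hpr_add : ∀ f f' : S × P → ℂ, pc φ (f + f') = pc φ f + pc φ f' := by
    intro f f'
    unfold pc
    rw [← Finset.sum_add_distrib]
    apply Finset.sum_congr rfl
    intro i _
    rw [Pi.add_apply, mul_add]
  let e : S × P → ℂ := Pi.single j 1
  have hne : np p e = 1 := np_single p hp0 j
  have hpre : pc φ e = 1 := by
    unfold pc
    rw [Finset.sum_eq_single j]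
    · show φ j * (Pi.single j 1 : S × P → ℂ) j = 1
      rw [Pi.single_eq_same, mul_one, hφ j, hlj, h2 j hj j]
      simp
    · intro i _ hi
      show φ i * (Pi.single j 1 : S × P → ℂ) i = 0
      rw [Pi.single_eq_of_ne hi, mul_zero]
    · intro h
      exact absurd (Finset.mem_univ _) h
  set E := blk t (xm g p C) * Y with hE
  -- (A)
  have hAA : ‖pc φ (E.mulVec e)‖ ≤ 1 / 4 := by
    have h5 : E.mulVec (E.mulVec e) = E.mulVec e := by
      rw [Matrix.mulVec_mulVec, hEE]
    have h6 : np p (E.mulVec e) ≤ (r * K) ^ p := by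
      have h61 : E.mulVec e = (blk t (xm g p C)).mulVec (Y.mulVec e) := by
        rw [hE, Matrix.mulVec_mulVec]
      rw [h61, Real.mul_rpow hr0.le hK0.le]
      refine (hx _).trans ?_
      apply mul_le_mul_of_nonneg_left _ (Real.rpow_nonneg hr0.le _)
      refine (hY _).trans ?_
      rw [hne, mul_one]
    have h60 := root_le (np_nonneg p (E.mulVec e)) (by positivity) hp0 h6
    have h7 : pc φ (E.mulVec e) = ∑ q ∈ range (k + 1), ((θ ^ q : ℝ) : ℂ) * pc (ψ q j) (E.mulVec e) := by
      unfold pc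
      simp only [Finset.mul_sum]
      rw [Finset.sum_comm]
      apply Finset.sum_congr rfl
      intro i _
      show (∑ q ∈ range (k + 1), ((θ ^ q : ℝ) : ℂ) * ψ q j i) * _ = _
      rw [Finset.sum_mul]
      apply Finset.sum_congr rfl
      intro q _
      ring
    have heps := (hpar.eps_pos 0 (Nat.zero_le _)).1
    rw [h7]
    calc ‖∑ q ∈ range (k + 1), ((θ ^ q : ℝ) : ℂ) * pc (ψ q j) (E.mulVec e)‖
        ≤ ∑ q ∈ range (k + 1), ‖((θ ^ q : ℝ) : ℂ) * pc (ψ q j) (E.mulVec e)‖ := norm_sum_le _ _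
      _ ≤ ∑ q ∈ range (k + 1), θ ^ q * (eps 0 * (r * K)) := by
        apply Finset.sum_le_sum
        intro q hq
        rw [norm_mul, Complex.norm_real, Real.norm_of_nonneg (by positivity)]
        apply mul_le_mul_of_nonneg_left _ (by positivity)
        exact (h4 j hj hjB q (Nat.zero_le _) (Nat.lt_succ_iff.1 (Finset.mem_range.1 hq)) _ h5).trans
          (mul_le_mul_of_nonneg_left h60 heps.le)
      _ = (∑ q ∈ range (k + 1), θ ^ q) * (eps 0 * (r * K)) := by rw [Finset.sum_mul]
      _ ≤ (1 - θ)⁻¹ * (eps 0 * (r * K)) := by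
        apply mul_le_mul_of_nonneg_right _ (by positivity)
        exact (summable_geometric_of_lt_one hθ0.le hθ1).sum_le_tsum _
          (fun _ _ => by positivity) |>.trans (le_of_eq (tsum_geometric_of_lt_one hθ0.le hθ1))
      _ = (eps 0 * (C * (r * K))) / (C - lam) := by
        have h8 : C - lam ≠ 0 := by linarith
        have h9 : (1 - θ)⁻¹ = C / (C - lam) := by
          rw [hθ]
          field_simp
        rw [h9]
        field_simp
      _ ≤ ((C - lam) / 4) / (C - lam) :=
        div_le_div_of_nonneg_right hpar.eps0 (by linarith)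
      _ = 1 / 4 := by
        have h8 : C - lam ≠ 0 := by linarith
        field_simp
  -- (B)
  have hBB : ‖pc φ ((1 - E).mulVec e)‖ ≤ 1 / 4 := by
    rw [hid, ← Matrix.mulVec_mulVec]
    set w := Z.mulVec e with hw
    have h6 : np p w ≤ K ^ p := by
      refine (hZ _).trans ?_
      rw [hne, mul_one]
    have h60 := root_le (np_nonneg p w) hK0.le hp0 h6
    have h7 : pc φ ((1 - blk t (xm g p C)).mulVec w) =
        ∑ i, (φ i - ∑ i', φ i' * blk t (xm g p C) i' i) * w i := by
      have h8 : ∀ i, (1 - blk t (xm g p C)).mulVec w i = w i - ∑ i', blk t (xm g p C) i i' * w i' := by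
        intro i
        rw [Matrix.sub_mulVec, Matrix.one_mulVec, Pi.sub_apply]
        rfl
      unfold pc
      simp only [h8]
      have h9 : ∀ i, (φ i - ∑ i', φ i' * blk t (xm g p C) i' i) * w i =
          φ i * w i - ∑ i', φ i' * (blk t (xm g p C) i' i * w i) := by
        intro i
        have h91 := Finset.sum_mul univ (fun i' => φ i' * blk t (xm g p C) i' i) (w i)
        rw [sub_mul, h91]
        congr 1
        apply Finset.sum_congr rfl
        intro i' _
        ring
      simp only [h9, mul_sub, Finset.sum_sub_distrib]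
      congr 1
      rw [Finset.sum_comm]
      apply Finset.sum_congr rfl
      intro i _
      rw [Finset.mul_sum]
    have hind : ∀ (T : Finset (S × P)) (a : ℝ), ∑ i, (if i ∈ T then a else 0) * ‖w i‖ = a * ∑ i ∈ T, ‖w i‖ := by
      intro T a
      rw [Finset.mul_sum, ← Finset.sum_subset (Finset.subset_univ T)]
      · apply Finset.sum_congr rfl
        intro i hi
        rw [if_pos hi]
      · intro i _ hi
        rw [if_neg hi, zero_mul]
    have hHol : ∀ T : Finset (S × P), ∑ i ∈ T, ‖w i‖ ≤ (T.card : ℝ) ^ (1 - 1 / p) * K := fun T =>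
      (hold p hp1 w T).trans (mul_le_mul_of_nonneg_left h60 (Real.rpow_nonneg (Nat.cast_nonneg _) _))
    rw [h7]
    calc ‖∑ i, (φ i - ∑ i', φ i' * blk t (xm g p C) i' i) * w i‖
        ≤ ∑ i, ‖(φ i - ∑ i', φ i' * blk t (xm g p C) i' i) * w i‖ := norm_sum_le _ _
      _ ≤ ∑ i, (∑ q ∈ range k, (if i ∈ W q then A q else 0) +
            (if i ∈ Wk then θ ^ k * D k ^ (1 / p - 1) else 0)) * ‖w i‖ := by
        apply Finset.sum_le_sum
        intro i _
        rw [norm_mul]
        exact mul_le_mul_of_nonneg_right (hclaim i) (norm_nonneg _)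
      _ = ∑ q ∈ range k, A q * ∑ i ∈ W q, ‖w i‖ + θ ^ k * D k ^ (1 / p - 1) * ∑ i ∈ Wk, ‖w i‖ := by
        have h8 : ∀ i, (∑ q ∈ range k, (if i ∈ W q then A q else 0) +
            (if i ∈ Wk then θ ^ k * D k ^ (1 / p - 1) else 0)) * ‖w i‖ =
            ∑ q ∈ range k, (if i ∈ W q then A q else 0) * ‖w i‖ +
              (if i ∈ Wk then θ ^ k * D k ^ (1 / p - 1) else 0) * ‖w i‖ := by
          intro i
          rw [add_mul, Finset.sum_mul]
        simp only [h8, Finset.sum_add_distrib]
        rw [Finset.sum_comm, hind]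
        congr 1
        apply Finset.sum_congr rfl
        intro q _
        rw [hind]
      _ ≤ ∑ q ∈ range k, 1 / (8 * (k : ℝ)) + 1 / 8 := by
        apply add_le_add
        · apply Finset.sum_le_sum
          intro q hq
          have hqk := Finset.mem_range.1 hq
          have hk0 : (0 : ℝ) < k := by exact_mod_cast hk
          have h8 : A q * ∑ i ∈ W q, ‖w i‖ ≤ C * K * dm p (d q) (m q) := by
            calc A q * ∑ i ∈ W q, ‖w i‖ ≤ A q * (((W q).card : ℝ) ^ (1 - 1 / p) * K) :=
                  mul_le_mul_of_nonneg_left (hHol _) (hA0 q)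
              _ ≤ C * K * ((d q : ℝ) ^ (-(1 / p)) * (m q : ℝ) ^ (1 - 1 / p)) :=
                  layer_arith hC0.le hK0.le hp1 (hd0 q) (hm0 q).le (hD0 _) (Nat.cast_nonneg _) (hWc q)
              _ = C * K * dm p (d q) (m q) := rfl
          refine h8.trans ?_
          rw [le_div_iff₀ (by positivity)]
          exact hpar.err q hqk
        · have h8 : θ ^ k * D k ^ (1 / p - 1) * ∑ i ∈ Wk, ‖w i‖ ≤ θ ^ k * K := by
            have h9 := layer_arith (p := p) (C := θ ^ k) (K := K) (d := 1) (m := 1) (D := D k)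
              (c := (Wk.card : ℝ)) (by positivity) hK0.le hp1 one_pos zero_le_one (hD0 k)
              (Nat.cast_nonneg _) hWkc
            rw [Real.one_rpow, Real.one_rpow, Real.one_rpow, div_one, mul_one, mul_one] at h9
            exact (mul_le_mul_of_nonneg_left (hHol _) hAk0).trans h9
          refine h8.trans ?_
          have h10 := hpar.last
          rw [← hθ] at h10
          linarith
      _ = 1 / 4 := by
        rw [Finset.sum_const, Finset.card_range, nsmul_eq_mul]
        have hk0 : (k : ℝ) ≠ 0 := by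
          have : (0 : ℝ) < k := by exact_mod_cast hk
          exact this.ne'
        field_simp
        norm_num
  have hsum : pc φ e = pc φ (E.mulVec e) + pc φ ((1 - E).mulVec e) := by
    rw [← hpr_add]
    congr 1
    rw [Matrix.sub_mulVec, Matrix.one_mulVec]
    abel
  rw [hpre] at hsum
  have h10 : (1 : ℝ) ≤ 1 / 4 + 1 / 4 := by
    calc (1 : ℝ) = ‖(1 : ℂ)‖ := by simp
      _ = ‖pc φ (E.mulVec e) + pc φ ((1 - E).mulVec e)‖ := by rw [← hsum]
      _ ≤ ‖pc φ (E.mulVec e)‖ + ‖pc φ ((1 - E).mulVec e)‖ := norm_add_le _ _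
      _ ≤ 1 / 4 + 1 / 4 := add_le_add hAA hBB
  norm_num at h10

end Pool.Agent.Helper74.XP
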